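import Mathlib
import Pool.Agent.H88.Tq3
import Pool.Agent.H88.FpDefs

open Pool.Agent.H88.Fp Pool.Agent.H88.Pex

theorem Pool.Agent.Results.MP_86e52e_an.Yes.result (𝕜 : Type) [RCLike 𝕜] (p : ℝ) (hp : 0 < p)
    (hp1 : p < 1) :
    ∃ (X : Type) (_ : AddCommGroup X) (_ : Module 𝕜 X) (ν : X → ℝ), IsPBanach 𝕜 p ν ∧
      (∃ x : X, x ≠ 0) ∧ SchurP 𝕜 p ν ∧
      ∀ φ : X →ₗ[𝕜] 𝕜, (∃ B, ∀ x, ‖φ x‖ ≤ B * ν x) → φ = 0 :=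
  trivial_dual hp hp1
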